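import Mathlib
import Pool.Agent.Helper13.JO.Defs

/-!
# Jones' conjecture (MP_4d96c9_nt), module JO-A4, part 1: Frobenius elements and primes of degree 1
-/

set_option autoImplicit false

namespace Pool.Agent.Helper18.JO

open NumberField Polynomial Pool.Agent.Helper13.JO

/-- In a field of characteristic `p`, the solutions of `x ^ p = x` are the images of integers
`0, …, p - 1`. -/
theorem exists_nat_of_pow_eq {k : Type*} [Field k] {p : ℕ} [hp : Fact p.Prime] [CharP k p] (x : k)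
    (hx : x ^ p = x) : ∃ n : ℕ, n < p ∧ (n : k) = x := by
  classical
  have h1 : (X ^ p - X : k[X]) ≠ 0 := FiniteField.X_pow_card_sub_X_ne_zero k hp.out.one_lt
  have hdeg : (X ^ p - X : k[X]).natDegree = p :=
    FiniteField.X_pow_card_sub_X_natDegree_eq k hp.out.one_lt
  have hfr : ∀ n : ℕ, ((n : k)) ^ p = n := by
    intro n
    have := congrArg (ZMod.castHom (dvd_refl p) k) (ZMod.pow_card (n : ZMod p))
    rwa [map_pow, map_natCast] at this
  have hsub : (Finset.range p).image (fun n : ℕ => (n : k)) ⊆ (X ^ p - X : k[X]).roots.toFinset := by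
    intro y hy
    obtain ⟨n, hn, rfl⟩ := Finset.mem_image.1 hy
    rw [Multiset.mem_toFinset, mem_roots h1]
    simp [IsRoot, hfr]
  have hcard : ((Finset.range p).image (fun n : ℕ => (n : k))).card = p := by
    rw [Finset.card_image_of_injOn, Finset.card_range]
    intro a ha b hb hab
    have ha' := Finset.mem_range.1 ha
    have hb' := Finset.mem_range.1 hb
    have : (a : k) = b := hab
    rw [CharP.natCast_eq_natCast k p] at this
    exact Nat.ModEq.eq_of_lt_of_lt this ha' hb'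
  have heq : (Finset.range p).image (fun n : ℕ => (n : k)) = (X ^ p - X : k[X]).roots.toFinset := by
    apply Finset.eq_of_subset_of_card_le hsub
    rw [hcard]
    refine (Multiset.toFinset_card_le _).trans ?_
    exact (card_roots' _).trans hdeg.le
  have : x ∈ (X ^ p - X : k[X]).roots.toFinset := by
    rw [Multiset.mem_toFinset, mem_roots h1]
    simp [IsRoot, hx]
  rw [← heq] at this
  obtain ⟨n, hn, h⟩ := Finset.mem_image.1 this
  exact ⟨n, Finset.mem_range.1 hn, h⟩

/-- The kernel of a homomorphism to a field of characteristic `p`, with image in the prime field,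
has norm `p`. -/
theorem absNorm_ker {A : Type*} [CommRing A] [IsDedekindDomain A] [Module.Free ℤ A]
    [Module.Finite ℤ A] {k : Type*} [Field k] {p : ℕ} [hp : Fact p.Prime] [CharP k p]
    (f : A →+* k) (hf : ∀ x, f x ^ p = f x) : Ideal.absNorm (RingHom.ker f) = p := by
  classical
  rw [Ideal.absNorm_apply, Submodule.cardQuot_apply]
  have e : (A ⧸ RingHom.ker f) ≃ f.range := (RingHom.quotientKerEquivRange f).toEquiv
  have h1 : Nat.card (A ⧸ RingHom.ker f) = Nat.card f.range := Nat.card_congr e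
  refine h1.trans ?_
  have e2 : Fin p ≃ f.range := by
    refine Equiv.ofBijective (fun n => ⟨(n : ℕ), ⟨((n : ℕ) : A), by simp⟩⟩) ⟨?_, ?_⟩
    · intro a b hab
      have : ((a : ℕ) : k) = (b : ℕ) := congrArg Subtype.val hab
      rw [CharP.natCast_eq_natCast k p] at this
      exact Fin.ext (Nat.ModEq.eq_of_lt_of_lt this a.2 b.2)
    · rintro ⟨y, x, rfl⟩
      obtain ⟨n, hn, h⟩ := exists_nat_of_pow_eq (p := p) (f x) (hf x)
      exact ⟨⟨n, hn⟩, Subtype.ext h⟩
  rw [← Nat.card_congr e2, Nat.card_eq_fintype_card, Fintype.card_fin]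

variable {L : Type} [Field L] [NumberField L]

/-- The homomorphism `𝓞 E → 𝓞 L / P` given by an automorphism `σ` of `L`. -/
noncomputable def fhom (E : IntermediateField ℚ L) (σ : L ≃ₐ[ℚ] L) (P : Ideal (𝓞 L)) :
    𝓞 E →+* 𝓞 L ⧸ P :=
  (Ideal.Quotient.mk P).comp
    (RingOfIntegers.mapRingHom ((σ : L →+* L).comp (algebraMap E L)))

theorem fhom_apply (E : IntermediateField ℚ L) (σ : L ≃ₐ[ℚ] L) (P : Ideal (𝓞 L)) (x : 𝓞 E) :
    fhom E σ P x = Ideal.Quotient.mk P (RingOfIntegers.mapRingHom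
      ((σ : L →+* L).comp (algebraMap E L)) x) := rfl

/-- `σ` as an automorphism of the ring of integers, on a lifted element. -/
theorem coe_mapRingHom (E : IntermediateField ℚ L) (σ : L ≃ₐ[ℚ] L) (x : 𝓞 E) :
    ((RingOfIntegers.mapRingHom ((σ : L →+* L).comp (algebraMap E L)) x : 𝓞 L) : L)
      = σ ((x : E) : L) := rfl

theorem coe_smul_int (σ : L ≃ₐ[ℚ] L) (x : 𝓞 L) : ((σ • x : 𝓞 L) : L) = σ (x : L) := rfl

/-- The image of `fhom` lies in the prime field if `σ E` is fixed by the Frobenius element. -/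
theorem fhom_pow (E : IntermediateField ℚ L) (σ g : L ≃ₐ[ℚ] L) (P : Ideal (𝓞 L)) (p : ℕ)
    (hg : ∀ x : 𝓞 L, g • x - x ^ p ∈ P) (hfix : ∀ x : E, g (σ x) = σ x) (x : 𝓞 E) :
    fhom E σ P x ^ p = fhom E σ P x := by
  rw [fhom_apply, ← map_pow, Ideal.Quotient.eq]
  set y : 𝓞 L := RingOfIntegers.mapRingHom ((σ : L →+* L).comp (algebraMap E L)) x with hy
  have h1 : g • y = y := by
    apply RingOfIntegers.ext
    rw [coe_smul_int, hy, coe_mapRingHom]
    exact hfix x
  have h2 := hg y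
  rw [h1] at h2
  have := P.neg_mem h2
  rwa [neg_sub] at this

omit [NumberField L] in
theorem charP_quot (P : Ideal (𝓞 L)) [P.IsMaximal] (p : ℕ) [hp : Fact p.Prime]
    (hpP : (p : 𝓞 L) ∈ P) : CharP (𝓞 L ⧸ P) p := by
  rw [CharP.charP_iff_prime_eq_zero hp.out]
  have : ((Ideal.Quotient.mk P) (p : 𝓞 L)) = 0 := Ideal.Quotient.eq_zero_iff_mem.2 hpP
  rwa [map_natCast] at this

/-- The fibres of `σ ↦ ker (fhom E σ P)`. -/
theorem eq_of_ker_eq (E : IntermediateField ℚ L) (σ τ : L ≃ₐ[ℚ] L) (P : Ideal (𝓞 L))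
    [P.IsMaximal] (p : ℕ) [hp : Fact p.Prime] (hpP : (p : 𝓞 L) ∈ P) (θ : 𝓞 E)
    (hσ : ∀ x, fhom E σ P x ^ p = fhom E σ P x)
    (hker : RingHom.ker (fhom E σ P) = RingHom.ker (fhom E τ P)) :
    fhom E σ P θ = fhom E τ P θ := by
  let _ : Field (𝓞 L ⧸ P) := Ideal.Quotient.field P
  have : CharP (𝓞 L ⧸ P) p := charP_quot P p hpP
  obtain ⟨n, -, hn⟩ := exists_nat_of_pow_eq (p := p) (fhom E σ P θ) (hσ θ)
  have h1 : θ - n ∈ RingHom.ker (fhom E σ P) := by
    rw [RingHom.mem_ker, map_sub, map_natCast, hn, sub_self]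
  rw [hker, RingHom.mem_ker, map_sub, map_natCast, hn] at h1
  exact (sub_eq_zero.1 h1).symm

theorem card_le_idc (h g : L ≃ₐ[ℚ] L) (P : Ideal (𝓞 L)) [P.IsMaximal] (p : ℕ)
    [hp : Fact p.Prime] (hpP : (p : 𝓞 L) ∈ P) (hg : ∀ x : 𝓞 L, g • x - x ^ p ∈ P)
    (E : IntermediateField ℚ L) (hE : E = IntermediateField.fixedField (Subgroup.zpowers h))
    (θ : 𝓞 E)
    (hθ : ∀ σ τ : L ≃ₐ[ℚ] L, σ (θ : E) = τ (θ : E) → σ⁻¹ * τ ∈ Subgroup.zpowers h)
    (hsep : ∀ σ τ : L ≃ₐ[ℚ] L, fhom E σ P θ = fhom E τ P θ → σ (θ : E) = τ (θ : E)) :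
    Nat.card {σ : L ≃ₐ[ℚ] L // Subgroup.zpowers h = Subgroup.zpowers (σ⁻¹ * g * σ)} ≤
      orderOf h * idc E p := by
  classical
  let _ : Field (𝓞 L ⧸ P) := Ideal.Quotient.field P
  have : CharP (𝓞 L ⧸ P) p := charP_quot P p hpP
  set S : Finset (L ≃ₐ[ℚ] L) :=
    Finset.univ.filter (fun σ => Subgroup.zpowers h = Subgroup.zpowers (σ⁻¹ * g * σ)) with hS
  have hfix : ∀ σ ∈ S, ∀ x : E, g (σ x) = σ x := by
    intro σ hσ x
    have h1 : σ⁻¹ * g * σ ∈ Subgroup.zpowers h := by
      rw [(Finset.mem_filter.1 hσ).2]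
      exact Subgroup.mem_zpowers _
    have h2 : (σ⁻¹ * g * σ) (x : L) = x := by
      have hx : (x : L) ∈ IntermediateField.fixedField (Subgroup.zpowers h) := hE ▸ x.2
      rw [IntermediateField.mem_fixedField_iff] at hx
      exact hx _ h1
    have h3 := congrArg σ h2
    rw [← AlgEquiv.mul_apply, ← mul_assoc, ← mul_assoc, mul_inv_cancel, one_mul,
      AlgEquiv.mul_apply] at h3
    exact h3
  have hpow : ∀ σ ∈ S, ∀ x, fhom E σ P x ^ p = fhom E σ P x := fun σ hσ x =>
    fhom_pow E σ g P p hg (hfix σ hσ) x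
  have h1 : S.card ≤ orderOf h * (S.image (fun σ => RingHom.ker (fhom E σ P))).card := by
    apply Finset.card_le_mul_card_image
    intro a ha
    obtain ⟨σ, hσ, rfl⟩ := Finset.mem_image.1 ha
    have h2 : (S.filter (fun τ => RingHom.ker (fhom E τ P) = RingHom.ker (fhom E σ P))) ⊆
        (Finset.univ.filter (fun ρ => ρ ∈ Subgroup.zpowers h)).image (fun ρ => σ * ρ) := by
      intro τ hτ
      obtain ⟨hτ1, hτ2⟩ := Finset.mem_filter.1 hτ
      have h3 := eq_of_ker_eq E σ τ P p hpP θ (hpow σ hσ) hτ2.symm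
      have h4 := hθ σ τ (hsep σ τ h3)
      exact Finset.mem_image.2 ⟨σ⁻¹ * τ, Finset.mem_filter.2 ⟨Finset.mem_univ _, h4⟩, by group⟩
    refine (Finset.card_le_card h2).trans (Finset.card_image_le.trans ?_)
    rw [← Nat.card_zpowers]
    rw [Nat.card_eq_fintype_card, Fintype.card_subtype]
  have h2 : (S.image (fun σ => RingHom.ker (fhom E σ P))).card ≤ idc E p := by
    rw [idc, ← Set.ncard_coe_finset]
    apply Set.ncard_le_ncard
    · intro I hI
      obtain ⟨σ, hσ, rfl⟩ := Finset.mem_image.1 (Finset.mem_coe.1 hI)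
      exact absNorm_ker (fhom E σ P) (hpow σ hσ)
    · exact Ideal.finite_setOfPred_absNorm_eq p
  have h3 : Nat.card {σ : L ≃ₐ[ℚ] L // Subgroup.zpowers h = Subgroup.zpowers (σ⁻¹ * g * σ)} =
      S.card := by
    rw [Nat.card_eq_fintype_card, Fintype.card_subtype]
  rw [h3]
  exact h1.trans (Nat.mul_le_mul le_rfl h2)

theorem totient_le_card {G : Type*} [Group G] [Fintype G] [DecidableEq (Subgroup G)] (k : G) :
    (orderOf k).totient ≤
      (Finset.univ.filter (fun h : G => Subgroup.zpowers h = Subgroup.zpowers k)).card := by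
  classical
  rw [Nat.totient]
  have hinj : Set.InjOn (fun j : ℕ => k ^ j)
      (((Finset.range (orderOf k)).filter (orderOf k).Coprime : Finset ℕ) : Set ℕ) := by
    intro a ha b hb hab
    apply pow_injOn_Iio_orderOf (x := k) _ _ hab
    · have := Finset.mem_filter.1 (Finset.mem_coe.1 ha)
      exact Finset.mem_range.1 this.1
    · have := Finset.mem_filter.1 (Finset.mem_coe.1 hb)
      exact Finset.mem_range.1 this.1
  rw [← Finset.card_image_of_injOn hinj]
  apply Finset.card_le_card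
  intro h hh
  obtain ⟨j, hj, rfl⟩ := Finset.mem_image.1 hh
  have hc := (Finset.mem_filter.1 hj).2
  refine Finset.mem_filter.2 ⟨Finset.mem_univ _, ?_⟩
  apply Subgroup.eq_of_le_of_card_ge
  · rw [Subgroup.zpowers_le]
    exact Subgroup.pow_mem _ (Subgroup.mem_zpowers k) j
  · rw [Nat.card_zpowers, Nat.card_zpowers, hc.orderOf_pow]

/-- Number of pairs `(h, σ)` such that `h` generates the conjugate of `⟨g⟩` by `σ`. -/
theorem sum_card {G : Type*} [Group G] [Fintype G] (g : G) :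
    Fintype.card G * (orderOf g).totient ≤
      ∑ h : G, Nat.card {σ : G // Subgroup.zpowers h = Subgroup.zpowers (σ⁻¹ * g * σ)} := by
  classical
  have h1 : ∀ h : G, Nat.card {σ : G // Subgroup.zpowers h = Subgroup.zpowers (σ⁻¹ * g * σ)} =
      ∑ σ : G, if Subgroup.zpowers h = Subgroup.zpowers (σ⁻¹ * g * σ) then 1 else 0 := by
    intro h
    rw [Nat.card_eq_fintype_card, Fintype.card_subtype, Finset.card_filter]
  simp_rw [h1]
  rw [Finset.sum_comm]
  have h2 : ∀ σ : G, (orderOf g).totient ≤ (∑ h : G, if Subgroup.zpowers h =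
      Subgroup.zpowers (σ⁻¹ * g * σ) then 1 else 0) := by
    intro σ
    have ho : orderOf (σ⁻¹ * g * σ) = orderOf g := by
      refine (SemiconjBy.orderOf_eq (σ⁻¹) ?_).symm
      change σ⁻¹ * g = σ⁻¹ * g * σ * σ⁻¹
      group
    rw [← Finset.card_filter, ← ho]
    exact totient_le_card _
  calc Fintype.card G * (orderOf g).totient = ∑ _σ : G, (orderOf g).totient := by
        rw [Finset.sum_const, Finset.card_univ, smul_eq_mul]
    _ ≤ _ := Finset.sum_le_sum (fun σ _ => h2 σ)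

theorem le_two_mul_totient {n : ℕ} (h : ∃ k, n = 2 ^ k) : n ≤ 2 * n.totient := by
  obtain ⟨k, rfl⟩ := h
  rcases Nat.eq_zero_or_pos k with rfl | hk
  · simp
  · rw [Nat.totient_prime_pow Nat.prime_two hk]
    obtain ⟨m, rfl⟩ : ∃ m, k = m + 1 := ⟨k - 1, by omega⟩
    simp [pow_succ, mul_comm]

/-- A nonzero algebraic integer lies in primes above only finitely many rational primes. -/
theorem eventually_notMem (Δ : 𝓞 L) (hΔ : Δ ≠ 0) : ∀ᶠ p : ℕ in Filter.atTop,
    p.Prime → ∀ P : Ideal (𝓞 L), P.IsMaximal → (p : 𝓞 L) ∈ P → Δ ∉ P := by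
  set m := Ideal.absNorm (Ideal.span {Δ}) with hm
  have hm0 : m ≠ 0 := by
    rw [hm, Ne, Ideal.absNorm_eq_zero_iff, Ideal.span_singleton_eq_bot]
    exact hΔ
  filter_upwards [Filter.eventually_gt_atTop m] with p hp hpp P hP hpP hΔP
  have h1 : (m : 𝓞 L) ∈ P := by
    have h2 : (m : 𝓞 L) ∈ Ideal.span {Δ} := Ideal.absNorm_mem _
    have h3 : Ideal.span {Δ} ≤ P := by
      rw [Ideal.span_singleton_le_iff_mem]
      exact hΔP
    exact h3 h2
  have hcop : IsCoprime (p : ℤ) (m : ℤ) := by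
    rw [Nat.isCoprime_iff_coprime, Nat.Prime.coprime_iff_not_dvd hpp]
    intro hd
    exact absurd (Nat.le_of_dvd (Nat.pos_of_ne_zero hm0) hd) (by omega)
  obtain ⟨a, b, hab⟩ := hcop
  have h4 : (1 : 𝓞 L) ∈ P := by
    have h5 : (((a * p + b * m : ℤ)) : 𝓞 L) ∈ P := by
      push_cast
      exact P.add_mem (P.mul_mem_left _ hpP) (P.mul_mem_left _ h1)
    rw [hab] at h5
    simpa using h5
  exact hP.ne_top ((Ideal.eq_top_iff_one P).2 h4)

/-- An integral element generating `L^⟨h⟩`. -/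
theorem exists_theta [IsGalois ℚ L] (h : L ≃ₐ[ℚ] L) (E : IntermediateField ℚ L)
    (hE : E = IntermediateField.fixedField (Subgroup.zpowers h)) :
    ∃ θ : 𝓞 E, ∀ σ τ : L ≃ₐ[ℚ] L, σ (θ : E) = τ (θ : E) → σ⁻¹ * τ ∈ Subgroup.zpowers h := by
  obtain ⟨α, hα⟩ := Field.exists_primitive_element ℚ E
  have halg : IsAlgebraic ℤ α := by
    have : IsAlgebraic ℚ α := Algebra.IsAlgebraic.isAlgebraic α
    exact (IsFractionRing.isAlgebraic_iff ℤ ℚ E).2 this
  obtain ⟨y, hy, hint⟩ := halg.exists_integral_multiple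
  refine ⟨⟨y • α, hint⟩, ?_⟩
  intro σ τ hst
  have h1 : σ ((y • α : E) : L) = τ ((y • α : E) : L) := hst
  have h2 : σ (α : L) = τ (α : L) := by
    have h3 : ((y • α : E) : L) = (y : L) * (α : L) := by
      rw [zsmul_eq_mul]
      push_cast
      rfl
    rw [h3, map_mul, map_mul, map_intCast, map_intCast] at h1
    exact mul_left_cancel₀ (by exact_mod_cast hy) h1
  have h4 : (σ : L →ₐ[ℚ] L).comp E.val = (τ : L →ₐ[ℚ] L).comp E.val := by
    ext x
    have hx : x ∈ (IntermediateField.adjoin ℚ {α} : IntermediateField ℚ E) := by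
      rw [hα]; trivial
    induction hx using IntermediateField.adjoin_induction with
    | mem x hx =>
      rw [Set.mem_singleton_iff] at hx
      subst hx
      exact h2
    | algebraMap x => exact (AlgHom.commutes _ x).trans (AlgHom.commutes _ x).symm
    | add x y _ _ hx hy => rw [map_add, map_add, hx, hy]
    | inv x _ hx => rw [map_inv₀, map_inv₀, hx]
    | mul x y _ _ hx hy => rw [map_mul, map_mul, hx, hy]
  have h5 : σ⁻¹ * τ ∈ E.fixingSubgroup := by
    rw [IntermediateField.mem_fixingSubgroup_iff]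
    intro x hx
    have h6 := DFunLike.congr_fun h4 (⟨x, hx⟩ : E)
    have h7 : σ x = τ x := h6
    rw [AlgEquiv.mul_apply, ← h7, ← AlgEquiv.mul_apply, inv_mul_cancel, AlgEquiv.one_apply]
  rw [hE, IntermediateField.fixingSubgroup_fixedField] at h5
  exact h5

end Pool.Agent.Helper18.JO
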