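import Mathlib
import Pool.Agent.Helper13.JO.Defs
import Pool.Agent.Helper18.JO.Dens1

/-!
# Jones' conjecture (MP_4d96c9_nt), module JO-A4, part 2: assembly
-/

set_option autoImplicit false

namespace Pool.Agent.Helper18.JO

open NumberField Polynomial Pool.Agent.Helper13.JO Filter

variable {L : Type} [Field L] [NumberField L] [IsGalois ℚ L]

/-- The fixed field of the subgroup generated by `h`. -/
noncomputable def EE (h : L ≃ₐ[ℚ] L) : IntermediateField ℚ L :=
  IntermediateField.fixedField (Subgroup.zpowers h)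

/-- A maximal ideal above a prime together with a Frobenius element. -/
theorem exists_frob (p : ℕ) (hp : p.Prime) : ∃ P : Ideal (𝓞 L), P.IsMaximal ∧ (p : 𝓞 L) ∈ P ∧
    ∃ g : L ≃ₐ[ℚ] L, ∀ x : 𝓞 L, g • x - x ^ p ∈ P := by
  have hpi : Prime (p : ℤ) := Nat.prime_iff_prime_int.1 hp
  have hmax : (Ideal.span {(p : ℤ)}).IsMaximal :=
    PrincipalIdealRing.isMaximal_of_irreducible hpi.irreducible
  obtain ⟨P, hP, hlies⟩ := Ideal.exists_maximal_ideal_liesOver_of_isIntegral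
    (Ideal.span {(p : ℤ)}) (S := 𝓞 L)
  have hunder : P.under ℤ = Ideal.span {(p : ℤ)} := hlies.over.symm
  have hpP : (p : 𝓞 L) ∈ P := by
    have : (p : ℤ) ∈ P.under ℤ := by
      rw [hunder]; exact Ideal.mem_span_singleton_self _
    simpa [Ideal.under, Ideal.mem_comap] using this
  refine ⟨P, hP, hpP, ?_⟩
  have hfin : Finite (𝓞 L ⧸ P) := by
    apply Ideal.finiteQuotientOfFreeOfNeBot
    intro hbot
    rw [hbot, Ideal.mem_bot] at hpP
    exact hp.ne_zero (by exact_mod_cast hpP)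
  obtain ⟨g, hg⟩ := IsArithFrobAt.exists_of_isInvariant ℤ (L ≃ₐ[ℚ] L) P
  refine ⟨g, fun x => ?_⟩
  have h1 := hg x
  have hc : Nat.card (ℤ ⧸ P.under ℤ) = p := by
    rw [hunder, Nat.card_congr (Int.quotientSpanNatEquivZMod p).toEquiv, Nat.card_zmod]
  rw [hc] at h1
  exact h1

open Classical in
/-- Lift of an algebraic integer. -/
noncomputable def lft (v : L) : 𝓞 L :=
  if h : ∃ w : 𝓞 L, algebraMap (𝓞 L) L w = v then h.choose else 0

omit [NumberField L] [IsGalois ℚ L] in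
theorem coe_lft (v : L) (h : IsIntegral ℤ v) : algebraMap (𝓞 L) L (lft v) = v := by
  have h' : ∃ w : 𝓞 L, algebraMap (𝓞 L) L w = v :=
    (IsIntegralClosure.isIntegral_iff (A := 𝓞 L)).1 h
  rw [lft, dif_pos h']
  exact h'.choose_spec

theorem exists_fixed_root (F : ℤ[X]) (hF : F.Monic)
    (hsplit : ((F.map (Int.castRingHom ℚ)).map (algebraMap ℚ L)).Splits) :
    ∀ᶠ p : ℕ in atTop, p.Prime → ∀ P : Ideal (𝓞 L), P.IsMaximal → (p : 𝓞 L) ∈ P →
      ∀ g : L ≃ₐ[ℚ] L, (∀ x : 𝓞 L, g • x - x ^ p ∈ P) → (∃ r : ℤ, (p : ℤ) ∣ F.eval r) →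
        ∃ x ∈ (F.map (Int.castRingHom ℚ)).rootSet L, g x = x := by
  classical
  set f : ℚ[X] := F.map (Int.castRingHom ℚ) with hf
  have hfm : f.Monic := hF.map _
  have hf0 : f ≠ 0 := hfm.ne_zero
  have hint : ∀ v ∈ f.rootSet L, IsIntegral ℤ v := by
    intro v hv
    refine ⟨F, hF, ?_⟩
    have h1 := (mem_rootSet.1 hv).2
    rw [hf, aeval_def, eval₂_map] at h1
    rw [← h1]
    congr 1
    exact RingHom.ext_int _ _
  have hsep : ∀ᶠ p : ℕ in atTop, ∀ vw : f.rootSet L × f.rootSet L, (vw.1 : L) ≠ vw.2 →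
      p.Prime → ∀ P : Ideal (𝓞 L), P.IsMaximal → (p : 𝓞 L) ∈ P →
      lft (vw.1 : L) - lft (vw.2 : L) ∉ P := by
    rw [Filter.eventually_all]
    rintro ⟨v, w⟩
    by_cases hvw : (v : L) = w
    · exact Filter.Eventually.of_forall (fun p h => absurd hvw h)
    · have hne : lft (v : L) - lft (w : L) ≠ 0 := by
        intro h0
        apply hvw
        have := congrArg (algebraMap (𝓞 L) L) h0
        rw [map_sub, map_zero, coe_lft _ (hint v v.2), coe_lft _ (hint w w.2)] at this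
        exact sub_eq_zero.1 this
      filter_upwards [eventually_notMem _ hne] with p hp _ hpp P hP hpP
      exact hp hpp P hP hpP
  filter_upwards [hsep] with p hp hpp P hP hpP g hg hr
  obtain ⟨r, hr⟩ := hr
  -- the roots
  set s := (f.map (algebraMap ℚ L)).roots with hs
  have hprod : f.map (algebraMap ℚ L) = (s.map (fun v => X - C v)).prod :=
    hsplit.eq_prod_roots_of_monic (hfm.map _)
  have hmem : ∀ v ∈ s, v ∈ f.rootSet L := by
    intro v hv
    rw [mem_rootSet]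
    refine ⟨hf0, ?_⟩
    have := (mem_roots'.1 hv).2
    rwa [IsRoot, eval_map, ← aeval_def] at this
  have h1 : ((F.eval r : ℤ) : 𝓞 L) = (s.map (fun v => (r : 𝓞 L) - lft v)).prod := by
    apply RingOfIntegers.ext
    have h2 := congrArg (eval (r : L)) hprod
    rw [eval_multiset_prod, Multiset.map_map] at h2
    have h3 : algebraMap (𝓞 L) L ((s.map (fun v => (r : 𝓞 L) - lft v)).prod) =
        (s.map (fun v => (r : L) - v)).prod := by
      rw [map_multiset_prod, Multiset.map_map]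
      congr 1
      apply Multiset.map_congr rfl
      intro v hv
      simp only [Function.comp]
      rw [map_sub, map_intCast, coe_lft _ (hint _ (hmem v hv))]
    have h4 : algebraMap (𝓞 L) L ((F.eval r : ℤ) : 𝓞 L) = eval (r : L)
        (f.map (algebraMap ℚ L)) := by
      rw [map_intCast, hf, Polynomial.map_map, eval_map, eval₂_at_intCast, eq_intCast,
        Int.cast_id]
    change algebraMap (𝓞 L) L _ = algebraMap (𝓞 L) L _
    rw [h3, h4, h2]
    congr 1
    apply Multiset.map_congr rfl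
    intro v hv
    simp
  have h2 : (s.map (fun v => (r : 𝓞 L) - lft v)).prod ∈ P := by
    rw [← h1]
    obtain ⟨c, hc⟩ := hr
    rw [hc]
    push_cast
    exact P.mul_mem_right _ hpP
  obtain ⟨y, hy, hyP⟩ := (hP.isPrime.multiset_prod_mem_iff_exists_mem _).1 h2
  obtain ⟨v, hv, rfl⟩ := Multiset.mem_map.1 hy
  have hvr := hmem v hv
  refine ⟨v, hvr, ?_⟩
  -- `g v` is a root
  have hgv : g v ∈ f.rootSet L := by
    rw [mem_rootSet] at hvr ⊢
    refine ⟨hf0, ?_⟩
    have : aeval (g v) f = g (aeval v f) := aeval_algHom_apply g.toAlgHom v f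
    rw [this, hvr.2, map_zero]
  by_contra hne
  refine hp ⟨⟨g v, hgv⟩, ⟨v, hvr⟩⟩ hne hpp P hP hpP ?_
  have h3 : lft (g v) = g • lft v := by
    apply RingOfIntegers.ext
    rw [coe_smul_int]
    exact (coe_lft _ (hint _ hgv)).trans (congrArg g (coe_lft _ (hint _ hvr)).symm)
  change lft (g v) - lft v ∈ P
  rw [h3]
  -- all modulo `P`
  have hF : Fact p.Prime := ⟨hpp⟩
  have hchar : CharP (𝓞 L ⧸ P) p := charP_quot P p hpP
  have hfr : ((r : 𝓞 L ⧸ P)) ^ p = r := by
    have := congrArg (ZMod.castHom (dvd_refl p) (𝓞 L ⧸ P)) (ZMod.pow_card (r : ZMod p))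
    rwa [map_pow, map_intCast] at this
  rw [← Ideal.Quotient.eq]
  have h4 := Ideal.Quotient.eq.2 (hg (lft v))
  have h5 := Ideal.Quotient.eq.2 hyP
  rw [h4, map_pow, ← h5, map_intCast, hfr]

/-- The local inequality. -/
theorem key (F : ℤ[X]) (hF : F.Monic)
    (hsplit : ((F.map (Int.castRingHom ℚ)).map (algebraMap ℚ L)).Splits)
    (h2 : IsPGroup 2 (L ≃ₐ[ℚ] L)) (Fix : Finset (L ≃ₐ[ℚ] L))
    (hFix : ∀ g, g ∈ Fix ↔ ∃ x ∈ (F.map (Int.castRingHom ℚ)).rootSet L, g x = x) :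
    ∀ᶠ p : ℕ in atTop, p.Prime → (∃ r : ℤ, (p : ℤ) ∣ F.eval r) →
      Fintype.card (L ≃ₐ[ℚ] L) ≤ 2 * ∑ h ∈ Fix, idc (EE h) p := by
  classical
  have hθ : ∀ h : L ≃ₐ[ℚ] L, ∃ θ : 𝓞 (EE h), ∀ σ τ : L ≃ₐ[ℚ] L,
      σ (θ : EE h) = τ (θ : EE h) → σ⁻¹ * τ ∈ Subgroup.zpowers h := fun h =>
    exists_theta h (EE h) rfl
  choose θ hθ using hθ
  have hsep : ∀ᶠ p : ℕ in atTop, ∀ t : (L ≃ₐ[ℚ] L) × (L ≃ₐ[ℚ] L) × (L ≃ₐ[ℚ] L),
      p.Prime → ∀ P : Ideal (𝓞 L), P.IsMaximal → (p : 𝓞 L) ∈ P →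
      fhom (EE t.1) t.2.1 P (θ t.1) = fhom (EE t.1) t.2.2 P (θ t.1) →
        t.2.1 (θ t.1 : EE t.1) = t.2.2 (θ t.1 : EE t.1) := by
    rw [Filter.eventually_all]
    rintro ⟨h, σ, τ⟩
    dsimp only
    by_cases hst : σ (θ h : EE h) = τ (θ h : EE h)
    · exact Filter.Eventually.of_forall (fun p _ P _ _ _ => hst)
    · set x := RingOfIntegers.mapRingHom ((σ : L →+* L).comp (algebraMap (EE h) L)) (θ h) with hx
      set y := RingOfIntegers.mapRingHom ((τ : L →+* L).comp (algebraMap (EE h) L)) (θ h) with hy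
      have hne : x - y ≠ 0 := by
        intro h0
        apply hst
        have := congrArg (algebraMap (𝓞 L) L) (sub_eq_zero.1 h0)
        exact this
      filter_upwards [eventually_notMem _ hne] with p hp hpp P hP hpP heq
      exfalso
      apply hp hpp P hP hpP
      rw [← Ideal.Quotient.eq]
      exact heq
  filter_upwards [hsep, exists_fixed_root (L := L) F hF hsplit] with p hp1 hp2 hpp hr
  obtain ⟨P, hP, hpP, g, hg⟩ := exists_frob (L := L) p hpp
  have hpf : Fact p.Prime := ⟨hpp⟩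
  obtain ⟨v, hv, hgv⟩ := hp2 hpp P hP hpP g hg hr
  have hto := le_two_mul_totient (n := orderOf g) (by
    obtain ⟨k, hk⟩ := (IsPGroup.iff_orderOf.1 h2) g
    exact ⟨k, hk⟩)
  have h3 := sum_card g
  have h4 : ∀ h : L ≃ₐ[ℚ] L, Nat.card {σ : L ≃ₐ[ℚ] L // Subgroup.zpowers h =
      Subgroup.zpowers (σ⁻¹ * g * σ)} ≤ orderOf g * (if h ∈ Fix then idc (EE h) p else 0) := by
    intro h
    rcases isEmpty_or_nonempty {σ : L ≃ₐ[ℚ] L // Subgroup.zpowers h =
      Subgroup.zpowers (σ⁻¹ * g * σ)} with hempty | ⟨σ, hσ⟩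
    · rw [Nat.card_of_isEmpty]; exact Nat.zero_le _
    · have ho : orderOf h = orderOf g := by
        have h5 : orderOf (σ⁻¹ * g * σ) = orderOf g := by
          refine (SemiconjBy.orderOf_eq (σ⁻¹) ?_).symm
          change σ⁻¹ * g = σ⁻¹ * g * σ * σ⁻¹
          group
        rw [← h5, ← Nat.card_zpowers, ← Nat.card_zpowers, hσ]
      have hhF : h ∈ Fix := by
        rw [hFix]
        refine ⟨σ⁻¹ v, ?_, ?_⟩
        · rw [mem_rootSet] at hv ⊢
          refine ⟨hv.1, ?_⟩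
          have : aeval (σ⁻¹ v) (F.map (Int.castRingHom ℚ)) =
            σ⁻¹ (aeval v (F.map (Int.castRingHom ℚ))) := aeval_algHom_apply (σ⁻¹).toAlgHom v _
          rw [this, hv.2, map_zero]
        · have hmem : h ∈ Subgroup.zpowers (σ⁻¹ * g * σ) := hσ ▸ Subgroup.mem_zpowers h
          have hle : Subgroup.zpowers (σ⁻¹ * g * σ) ≤
              MulAction.stabilizer (L ≃ₐ[ℚ] L) (σ⁻¹ v) := by
            rw [Subgroup.zpowers_le, MulAction.mem_stabilizer_iff]
            rw [AlgEquiv.smul_def, ← AlgEquiv.mul_apply, mul_assoc, mul_inv_cancel, mul_one,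
              AlgEquiv.mul_apply, hgv]
          exact MulAction.mem_stabilizer_iff.1 (hle hmem)
      rw [if_pos hhF, ← ho]
      exact card_le_idc h g P p hpP hg (EE h) rfl (θ h) (hθ h)
        (fun σ τ => hp1 (h, σ, τ) hpp P hP hpP)
  have h5 : Fintype.card (L ≃ₐ[ℚ] L) * orderOf g ≤
      orderOf g * (2 * ∑ h ∈ Fix, idc (EE h) p) := by
    calc Fintype.card (L ≃ₐ[ℚ] L) * orderOf g
        ≤ Fintype.card (L ≃ₐ[ℚ] L) * (2 * (orderOf g).totient) := Nat.mul_le_mul le_rfl hto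
      _ = 2 * (Fintype.card (L ≃ₐ[ℚ] L) * (orderOf g).totient) := by ring
      _ ≤ 2 * ∑ h : L ≃ₐ[ℚ] L, orderOf g * (if h ∈ Fix then idc (EE h) p else 0) :=
          Nat.mul_le_mul le_rfl (h3.trans (Finset.sum_le_sum (fun h _ => h4 h)))
      _ = orderOf g * (2 * ∑ h ∈ Fix, idc (EE h) p) := by
          rw [← Finset.mul_sum, Finset.sum_ite_mem, Finset.univ_inter]
          ring
  have h6 : 0 < orderOf g := orderOf_pos g
  rw [mul_comm] at h5
  exact Nat.le_of_mul_le_mul_left h5 h6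

theorem eventually_le_div_log (K : ℝ) : ∀ᶠ N : ℕ in atTop, K ≤ (N : ℝ) / Real.log N := by
  have hc : (0 : ℝ) < 1 / (|K| + 1) := by positivity
  have h1 := (Real.isLittleO_log_id_atTop.def hc).and (eventually_gt_atTop (1 : ℝ))
  have h2 := tendsto_natCast_atTop_atTop (R := ℝ) |>.eventually h1
  filter_upwards [h2] with N hN
  obtain ⟨hN1, hN2⟩ := hN
  have hlog : 0 < Real.log N := Real.log_pos hN2
  rw [le_div_iff₀ hlog]
  rw [Real.norm_eq_abs, abs_of_pos hlog, id, Real.norm_eq_abs,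
    abs_of_pos (show (0 : ℝ) < N by linarith)] at hN1
  have h3 : (|K| + 1) * Real.log N ≤ N := by
    calc (|K| + 1) * Real.log N ≤ (|K| + 1) * (1 / (|K| + 1) * N) :=
          mul_le_mul_of_nonneg_left hN1 (by positivity)
      _ = N := by field_simp
  have h4 : K * Real.log N ≤ (|K| + 1) * Real.log N :=
    mul_le_mul_of_nonneg_right (by linarith [le_abs_self K]) hlog.le
  exact h4.trans h3

/-- The global inequality for a Galois extension containing the roots. -/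
theorem dens_aux (hPB : PrimeBoundStmt) (F : ℤ[X]) (hF : F.Monic)
    (hsplit : ((F.map (Int.castRingHom ℚ)).map (algebraMap ℚ L)).Splits)
    (h2 : IsPGroup 2 (L ≃ₐ[ℚ] L)) :
    ∀ᶠ N : ℕ in atTop,
      (({p : ℕ | p ≤ N ∧ p.Prime ∧ ∃ r : ℤ, (p : ℤ) ∣ F.eval r}.ncard : ℕ) : ℝ) ≤
        7 * ((Nat.card {g : L ≃ₐ[ℚ] L // ∃ x ∈ (F.map (Int.castRingHom ℚ)).rootSet L, g x = x} : ℝ) /
          (Nat.card (L ≃ₐ[ℚ] L) : ℝ)) * (N / Real.log N) := by
  classical
  set f : ℚ[X] := F.map (Int.castRingHom ℚ) with hf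
  set Fix : Finset (L ≃ₐ[ℚ] L) := Finset.univ.filter (fun g => ∃ x ∈ f.rootSet L, g x = x)
    with hFixdef
  have hFix : ∀ g, g ∈ Fix ↔ ∃ x ∈ f.rootSet L, g x = x := by
    intro g
    rw [hFixdef, Finset.mem_filter]
    simp
  have hcardFix : Nat.card {g : L ≃ₐ[ℚ] L // ∃ x ∈ f.rootSet L, g x = x} = Fix.card := by
    rw [Nat.card_eq_fintype_card, Fintype.card_subtype]
  rw [hcardFix, Nat.card_eq_fintype_card]
  rcases Finset.eq_empty_or_nonempty Fix with hemp | hne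
  · -- no roots: `F = 1`
    have hroots : (f.map (algebraMap ℚ L)).roots = 0 := by
      by_contra h0
      obtain ⟨v, hv⟩ := Multiset.exists_mem_of_ne_zero h0
      have hvr : v ∈ f.rootSet L := by
        rw [mem_rootSet]
        refine ⟨(hF.map _).ne_zero, ?_⟩
        have := (mem_roots'.1 hv).2
        rwa [IsRoot, eval_map, ← aeval_def] at this
      have : (1 : L ≃ₐ[ℚ] L) ∈ Fix := (hFix 1).2 ⟨v, hvr, rfl⟩
      rw [hemp] at this
      exact absurd this (Finset.notMem_empty _)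
    have hdeg : F.natDegree = 0 := by
      have h3 := hsplit.natDegree_eq_card_roots
      rw [hroots, Multiset.card_zero, natDegree_map, hf,
        natDegree_map_eq_of_injective (Int.cast_injective)] at h3
      exact h3
    have hF1 : F = 1 := hF.natDegree_eq_zero.1 hdeg
    refine Eventually.of_forall (fun N => ?_)
    have hempty : {p : ℕ | p ≤ N ∧ p.Prime ∧ ∃ r : ℤ, (p : ℤ) ∣ F.eval r} = ∅ := by
      ext p
      simp only [Set.mem_ofPred_eq, Set.mem_empty_iff_false, iff_false]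
      rintro ⟨_, hpp, r, hr⟩
      rw [hF1, eval_one] at hr
      have := Int.natCast_dvd_natCast.1 (by simpa using hr : (p : ℤ) ∣ ((1 : ℕ) : ℤ))
      exact hpp.one_lt.ne' (Nat.dvd_one.1 this)
    rw [hempty, Set.ncard_empty, hemp]
    simp
  obtain ⟨p₀, hp₀⟩ := eventually_atTop.1 (key F hF hsplit h2 Fix hFix)
  have hG : (0 : ℝ) < Fintype.card (L ≃ₐ[ℚ] L) := by exact_mod_cast Fintype.card_pos
  have hFc : (0 : ℝ) < Fix.card := by exact_mod_cast hne.card_pos
  have hall : ∀ᶠ N : ℕ in atTop, ∀ h : L ≃ₐ[ℚ] L,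
      ∑ p ∈ (Finset.range (N + 1)).filter Nat.Prime, (idc (EE h) p : ℝ) ≤
        3 * (N / Real.log N) := by
    rw [Filter.eventually_all]
    intro h
    exact hPB (EE h)
  filter_upwards [hall, eventually_le_div_log (p₀ * Fintype.card (L ≃ₐ[ℚ] L) / Fix.card)]
    with N hN1 hN2
  set B : Finset ℕ := ((Finset.range (N + 1)).filter Nat.Prime).filter
    (fun p => p₀ ≤ p ∧ ∃ r : ℤ, (p : ℤ) ∣ F.eval r) with hB
  have hsub : {p : ℕ | p ≤ N ∧ p.Prime ∧ ∃ r : ℤ, (p : ℤ) ∣ F.eval r} ⊆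
      ((Finset.range p₀ ∪ B : Finset ℕ) : Set ℕ) := by
    rintro p ⟨hpN, hpp, hr⟩
    rw [Finset.mem_coe, Finset.mem_union, Finset.mem_range]
    rcases lt_or_ge p p₀ with h | h
    · exact Or.inl h
    · right
      rw [hB, Finset.mem_filter, Finset.mem_filter, Finset.mem_range]
      exact ⟨⟨by omega, hpp⟩, h, hr⟩
  have hc1 : ({p : ℕ | p ≤ N ∧ p.Prime ∧ ∃ r : ℤ, (p : ℤ) ∣ F.eval r}.ncard : ℕ) ≤
      p₀ + B.card := by
    refine (Set.ncard_le_ncard hsub (Finset.finite_toSet _)).trans ?_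
    rw [Set.ncard_coe_finset]
    refine (Finset.card_union_le _ _).trans ?_
    rw [Finset.card_range]
  have hc2 : (B.card : ℝ) * Fintype.card (L ≃ₐ[ℚ] L) ≤ 2 * (Fix.card * (3 * (N / Real.log N))) := by
    calc (B.card : ℝ) * Fintype.card (L ≃ₐ[ℚ] L)
        = ∑ p ∈ B, (Fintype.card (L ≃ₐ[ℚ] L) : ℝ) := by
          rw [Finset.sum_const, nsmul_eq_mul]
      _ ≤ ∑ p ∈ B, ((2 * ∑ h ∈ Fix, idc (EE h) p : ℕ) : ℝ) := by
          apply Finset.sum_le_sum
          intro p hp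
          obtain ⟨hp1, hp2, hp3⟩ := Finset.mem_filter.1 hp
          exact_mod_cast hp₀ p hp2 (Finset.mem_filter.1 hp1).2 hp3
      _ ≤ ∑ p ∈ (Finset.range (N + 1)).filter Nat.Prime,
            ((2 * ∑ h ∈ Fix, idc (EE h) p : ℕ) : ℝ) := by
          apply Finset.sum_le_sum_of_subset_of_nonneg (Finset.filter_subset _ _)
          intros
          positivity
      _ = 2 * ∑ h ∈ Fix, ∑ p ∈ (Finset.range (N + 1)).filter Nat.Prime, (idc (EE h) p : ℝ) := by
          rw [Finset.sum_comm, Finset.mul_sum]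
          push_cast
          rfl
      _ ≤ 2 * ∑ h ∈ Fix, (3 * (N / Real.log N)) := by
          apply mul_le_mul_of_nonneg_left _ (by norm_num)
          exact Finset.sum_le_sum (fun h _ => hN1 h)
      _ = 2 * (Fix.card * (3 * (N / Real.log N))) := by
          rw [Finset.sum_const, nsmul_eq_mul]
  have hc3 : (B.card : ℝ) ≤ 6 * ((Fix.card : ℝ) / Fintype.card (L ≃ₐ[ℚ] L)) * (N / Real.log N) := by
    rw [← le_div_iff₀ hG] at hc2
    refine hc2.trans (le_of_eq ?_)
    field_simp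
    ring
  have hc4 : (p₀ : ℝ) ≤ ((Fix.card : ℝ) / Fintype.card (L ≃ₐ[ℚ] L)) * (N / Real.log N) := by
    rw [div_le_iff₀ hFc] at hN2
    rw [div_mul_eq_mul_div, le_div_iff₀ hG]
    linarith
  have hc5 : (({p : ℕ | p ≤ N ∧ p.Prime ∧ ∃ r : ℤ, (p : ℤ) ∣ F.eval r}.ncard : ℕ) : ℝ) ≤
      p₀ + B.card := by exact_mod_cast hc1
  linarith

/-- The same, for any `ℚ`-algebra structure. -/
theorem dens_aux' (M : Type) [Field M] [CharZero M] [inst : Algebra ℚ M] [FiniteDimensional ℚ M]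
    [IsGalois ℚ M] (hPB : PrimeBoundStmt) (F : ℤ[X]) (hF : F.Monic)
    (hsplit : ((F.map (Int.castRingHom ℚ)).map (algebraMap ℚ M)).Splits)
    (h2 : IsPGroup 2 (M ≃ₐ[ℚ] M)) :
    ∀ᶠ N : ℕ in atTop,
      (({p : ℕ | p ≤ N ∧ p.Prime ∧ ∃ r : ℤ, (p : ℤ) ∣ F.eval r}.ncard : ℕ) : ℝ) ≤
        7 * ((Nat.card {g : M ≃ₐ[ℚ] M //
          ∃ x ∈ (F.map (Int.castRingHom ℚ)).rootSet M, g x = x} : ℝ) /
          (Nat.card (M ≃ₐ[ℚ] M) : ℝ)) * (N / Real.log N) := by
  obtain rfl : inst = DivisionRing.toRatAlgebra := Subsingleton.elim _ _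
  have : NumberField M := ⟨⟩
  exact dens_aux hPB F hF hsplit h2

theorem isGalois_splittingField {K : Type} [Field K] (f : K[X]) (hf : f.Separable) :
    IsGalois K f.SplittingField :=
  IsGalois.of_separable_splitting_field hf

theorem finiteDimensional_splittingField {K : Type} [Field K] (f : K[X]) :
    FiniteDimensional K f.SplittingField := inferInstance

/-- Module JO-A4. -/
theorem dens (h : PrimeBoundStmt) : DensStmt := by
  intro F hF hsep h2
  exact @dens_aux' (F.map (Int.castRingHom ℚ)).SplittingField _ _ _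
    (finiteDimensional_splittingField _) (isGalois_splittingField _ hsep) h F hF
    (SplittingField.splits _) h2

end Pool.Agent.Helper18.JO
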